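import Pool.Agent.Work.MP_70e905_nt.PK.W.Defs

/-!
# PK/W/Cnt (size M): few bad cells

PROOF. Let `e ∈ H`, `c = c e`, `s = k e.1`, `t = k e.2`. `cA N K j = ⌊j N / K⌋`, so `j N / K - 1 < cA N K j ≤ j N / K`. On the cell
`c (y e.2 - y e.1)` lies between `c (cA t - cA (s + 1) + 1)` and `c (cA (t + 1) - 1 - cA s)` (if the cell is not empty; on an empty cell the condition holds trivially). If the quotient by `N`
is not constant on the cell, there is an integer `τ` with `c (cA t - cA (s + 1) + 1) < τ N ≤ c (cA (t + 1) - 1 - cA s)`, hence (use the bounds for `cA`)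
`c (t - s - 1) < τ K ≤ c (t - s + 1)`. So `|τ| ≤ c` (`|t - s| ≤ K - 1`) and, for given `s` and `τ`, `|c (t - s) - τ K| ≤ c` leaves at most `3` values of `t`
(`t - s` lies in an interval of length `2`). For this `e` there are at most `K * 3 (2 D + 1)` pairs `(s, t)`, and (`e.1 ≠ e.2`) each is attained by `K ^ (n - 2)` functions
`k`; `n = card V`. Sum over `e ∈ H`.
-/

set_option autoImplicit false

namespace PoolPK

open Finset

variable {V : Type} [Fintype V] [DecidableEq V]

private theorem cA_mono (N K : ℕ) {j k : ℕ} (h : j ≤ k) : cA N K j ≤ cA N K k :=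
  Nat.div_le_div_right (Nat.mul_le_mul_right N h)

private theorem mem_cell' {N K : ℕ} {k : V → Fin K} {y : V → ℤ} :
    y ∈ cell N K k ↔ ∀ i, (cA N K (k i) : ℤ) ≤ y i ∧ y i < cA N K (k i + 1) := by
  unfold cell box
  rw [Fintype.mem_piFinset]
  refine forall_congr' fun i => ?_
  rw [Finset.mem_Ico]
  have h := cA_mono N K (Nat.le_succ (k i : ℕ))
  have h' : (k i : ℕ).succ = (k i : ℕ) + 1 := rfl
  rw [h'] at h
  beta_reduce
  omega

/-- the pair `(s, t)` of cell indices is bad for the coefficient `c` -/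
private def Bp (c K s t : ℕ) : Prop :=
  ∃ τ : ℤ, (c : ℤ) * ((t : ℤ) - s - 1) < K * τ ∧ (K : ℤ) * τ ≤ c * ((t : ℤ) - s + 1)

private theorem cA_bounds (N K j : ℕ) (hK : 1 ≤ K) :
    (K : ℤ) * cA N K j ≤ j * N ∧ (j : ℤ) * N < K * cA N K j + K := by
  have h1 : K * (j * N / K) ≤ j * N := Nat.mul_div_le _ _
  have h2 : j * N < K * (j * N / K + 1) := Nat.lt_mul_div_succ _ (by omega)
  unfold cA
  constructor
  · exact_mod_cast h1
  · have h3 : ((j * N : ℕ) : ℤ) < ((K * (j * N / K + 1) : ℕ) : ℤ) := by exact_mod_cast h2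
    push_cast at h3 ⊢
    linarith

private theorem bp_of_lt {N K c : ℕ} (hK : 1 ≤ K) (hN : 1 ≤ N) {k : V → Fin K}
    {a b : V} {y y' : V → ℤ} (hy : y ∈ cell N K k) (hy' : y' ∈ cell N K k)
    (h : ((c : ℤ) * (y b - y a)) / (N : ℤ) < ((c : ℤ) * (y' b - y' a)) / (N : ℤ)) :
    Bp c K (k a) (k b) := by
  have hNz : (0 : ℤ) < N := by exact_mod_cast hN
  have hKz : (0 : ℤ) < K := by exact_mod_cast hK
  have hcz : (0 : ℤ) ≤ c := Int.natCast_nonneg _
  refine ⟨((c : ℤ) * (y' b - y' a)) / (N : ℤ), ?_, ?_⟩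
  · have h1 := (Int.ediv_lt_iff_lt_mul hNz).1 h
    have ma := mem_cell'.1 hy a
    have mb := mem_cell'.1 hy b
    have b1 := cA_bounds N K (k b) hK
    have b2 := cA_bounds N K (k a + 1) hK
    generalize ((c : ℤ) * (y' b - y' a)) / (N : ℤ) = τ at *
    have e1 : ((k b : ℕ) : ℤ) * N - (((k a + 1 : ℕ) : ℤ)) * N ≤ K * (y b - y a) := by
      nlinarith [mul_le_mul_of_nonneg_left mb.1 hKz.le,
        mul_le_mul_of_nonneg_left (show y a + 1 ≤ (cA N K (k a + 1) : ℤ) by omega) hKz.le]
    have e2 : (c : ℤ) * (((k b : ℕ) : ℤ) - (k a : ℕ) - 1) * N < (K * τ) * N := by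
      calc (c : ℤ) * (((k b : ℕ) : ℤ) - (k a : ℕ) - 1) * N
          = c * (((k b : ℕ) : ℤ) * N - (((k a + 1 : ℕ) : ℤ)) * N) := by
            push_cast
            ring
        _ ≤ c * (K * (y b - y a)) := mul_le_mul_of_nonneg_left e1 hcz
        _ = K * (c * (y b - y a)) := by ring
        _ < K * (τ * N) := mul_lt_mul_of_pos_left h1 hKz
        _ = (K * τ) * N := by ring
    exact lt_of_mul_lt_mul_right e2 hNz.le
  · have h1 : ((c : ℤ) * (y' b - y' a)) / (N : ℤ) * N ≤ (c : ℤ) * (y' b - y' a) :=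
      Int.ediv_mul_le _ hNz.ne'
    have ma := mem_cell'.1 hy' a
    have mb := mem_cell'.1 hy' b
    have b1 := cA_bounds N K (k b + 1) hK
    have b2 := cA_bounds N K (k a) hK
    generalize ((c : ℤ) * (y' b - y' a)) / (N : ℤ) = τ at *
    have e1 : K * (y' b - y' a) ≤ (((k b + 1 : ℕ) : ℤ)) * N - ((k a : ℕ) : ℤ) * N := by
      nlinarith [mul_le_mul_of_nonneg_left ma.1 hKz.le,
        mul_le_mul_of_nonneg_left (show y' b + 1 ≤ (cA N K (k b + 1) : ℤ) by omega) hKz.le]
    have e2 : (K * τ) * N ≤ (c : ℤ) * (((k b : ℕ) : ℤ) - (k a : ℕ) + 1) * N := by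
      calc (K * τ) * N = K * (τ * N) := by ring
        _ ≤ K * (c * (y' b - y' a)) := mul_le_mul_of_nonneg_left h1 hKz.le
        _ = c * (K * (y' b - y' a)) := by ring
        _ ≤ c * ((((k b + 1 : ℕ) : ℤ)) * N - ((k a : ℕ) : ℤ) * N) :=
            mul_le_mul_of_nonneg_left e1 hcz
        _ = _ := by
            push_cast
            ring
    exact le_of_mul_le_mul_right e2 hNz

private theorem bp_of_not {N K c : ℕ} (hK : 1 ≤ K) (hN : 1 ≤ N) {k : V → Fin K} {a b : V}
    (h : ¬ ∃ τ : ℤ, ∀ y ∈ cell N K k, ((c : ℤ) * (y b - y a)) / (N : ℤ) = τ) :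
    Bp c K (k a) (k b) := by
  push Not at h
  obtain ⟨y₀, hy₀, -⟩ := h 0
  obtain ⟨y₁, hy₁, hne⟩ := h (((c : ℤ) * (y₀ b - y₀ a)) / (N : ℤ))
  rcases lt_or_gt_of_ne hne with h1 | h1
  · exact bp_of_lt hK hN hy₁ hy₀ h1
  · exact bp_of_lt hK hN hy₀ hy₁ h1

private theorem card_three {K : ℕ} (T : Finset (Fin K))
    (h : ∀ a ∈ T, ∀ b ∈ T, (b : ℕ) < a + 3) : #T ≤ 3 := by
  rcases T.eq_empty_or_nonempty with rfl | hT
  · simp
  · have h1 : T.map Fin.valEmbedding ⊆ Ico (T.min' hT : ℕ) (T.min' hT + 3) := by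
      intro x hx
      rw [Finset.mem_map] at hx
      obtain ⟨a, ha, rfl⟩ := hx
      rw [Finset.mem_Ico]
      exact ⟨T.min'_le a ha, h _ (T.min'_mem hT) a ha⟩
    have h2 := Finset.card_le_card h1
    rw [Finset.card_map, Nat.card_Ico] at h2
    omega

open Classical in
private theorem card_t {c D K : ℕ} (hK : 1 ≤ K) (hc1 : 1 ≤ c) (hcD : c ≤ D) (s : Fin K) :
    #((univ : Finset (Fin K)).filter (fun t : Fin K => Bp c K s t)) ≤ 3 * (2 * D + 1) := by
  have hsub : (univ : Finset (Fin K)).filter (fun t : Fin K => Bp c K s t) ⊆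
      (Icc (-(D : ℤ)) D).biUnion (fun τ => (univ : Finset (Fin K)).filter (fun t : Fin K =>
        (c : ℤ) * (((t : ℕ) : ℤ) - (s : ℕ) - 1) < K * τ ∧
          (K : ℤ) * τ ≤ c * (((t : ℕ) : ℤ) - (s : ℕ) + 1))) := by
    intro t ht
    obtain ⟨τ, h1, h2⟩ := (Finset.mem_filter.1 ht).2
    rw [Finset.mem_biUnion]
    refine ⟨τ, ?_, Finset.mem_filter.2 ⟨Finset.mem_univ _, h1, h2⟩⟩
    have hKz : (0 : ℤ) < K := by exact_mod_cast hK
    have hcz : (0 : ℤ) < c := by exact_mod_cast hc1
    have hcD' : (c : ℤ) ≤ D := by exact_mod_cast hcD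
    have hs := s.2
    have ht' := t.2
    have e1 : (K : ℤ) * τ ≤ K * c := by
      refine h2.trans ?_
      rw [mul_comm (K : ℤ)]
      exact mul_le_mul_of_nonneg_left (by omega) hcz.le
    have e2 : (K : ℤ) * (-c) < K * τ := by
      refine lt_of_le_of_lt ?_ h1
      have : (c : ℤ) * (-K) ≤ c * (((t : ℕ) : ℤ) - (s : ℕ) - 1) :=
        mul_le_mul_of_nonneg_left (by omega) hcz.le
      linarith
    have e3 := le_of_mul_le_mul_left e1 hKz
    have e4 := lt_of_mul_lt_mul_left e2 hKz.le
    rw [Finset.mem_Icc]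
    omega
  refine (Finset.card_le_card hsub).trans (Finset.card_biUnion_le.trans ?_)
  have h3 : ∀ τ ∈ Icc (-(D : ℤ)) D, #((univ : Finset (Fin K)).filter (fun t : Fin K =>
        (c : ℤ) * (((t : ℕ) : ℤ) - (s : ℕ) - 1) < K * τ ∧
          (K : ℤ) * τ ≤ c * (((t : ℕ) : ℤ) - (s : ℕ) + 1))) ≤ 3 := by
    intro τ _
    refine card_three _ fun a ha b hb => ?_
    have h1 := (Finset.mem_filter.1 ha).2
    have h2 := (Finset.mem_filter.1 hb).2
    have hcz : (0 : ℤ) < c := by exact_mod_cast hc1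
    have h4 : (c : ℤ) * (((b : ℕ) : ℤ) - (s : ℕ) - 1) < c * (((a : ℕ) : ℤ) - (s : ℕ) + 1) :=
      h2.1.trans_le h1.2
    have h5 := lt_of_mul_lt_mul_left h4 hcz.le
    omega
  refine (Finset.sum_le_sum h3).trans (le_of_eq ?_)
  rw [Finset.sum_const, smul_eq_mul, Int.card_Icc]
  have : ((D : ℤ) + 1 - -(D : ℤ)).toNat = 2 * D + 1 := by omega
  rw [this, mul_comm]

private theorem card_fix {K : ℕ} {a b : V} (hab : a ≠ b) (s t : Fin K) :
    #((univ : Finset (V → Fin K)).filter (fun k => k a = s ∧ k b = t)) * K ^ 2 =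
      K ^ Fintype.card V := by
  classical
  have h1 : (univ : Finset (V → Fin K)).filter (fun k => k a = s ∧ k b = t) =
      Fintype.piFinset (fun i => if i = a then {s} else if i = b then {t} else univ) := by
    ext k
    rw [Finset.mem_filter, Fintype.mem_piFinset]
    constructor
    · rintro ⟨-, h1, h2⟩ i
      split_ifs with h3 h4
      · rw [h3, h1]
        exact Finset.mem_singleton_self _
      · rw [h4, h2]
        exact Finset.mem_singleton_self _
      · exact Finset.mem_univ _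
    · intro h
      refine ⟨Finset.mem_univ _, ?_, ?_⟩
      · have := h a
        rw [if_pos rfl] at this
        exact Finset.mem_singleton.1 this
      · have := h b
        rw [if_neg hab.symm, if_pos rfl] at this
        exact Finset.mem_singleton.1 this
  rw [h1, Fintype.card_piFinset]
  have h2 : (∏ i : V, if i ∈ ({a, b} : Finset V) then K else 1) = K ^ 2 := by
    rw [Finset.prod_ite_mem, Finset.univ_inter, Finset.prod_const, Finset.card_pair hab]
  rw [← h2, ← Finset.prod_mul_distrib]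
  have h3 : ∀ i : V, #(if i = a then {s} else if i = b then {t} else (univ : Finset (Fin K))) *
      (if i ∈ ({a, b} : Finset V) then K else 1) = K := by
    intro i
    by_cases h4 : i = a
    · simp [h4]
    · by_cases h5 : i = b
      · simp [h5, hab.symm]
      · simp [h4, h5]
  rw [Finset.prod_congr rfl fun i _ => h3 i, Finset.prod_const, Finset.card_univ]

open Classical in
private theorem card_one {c D K : ℕ} (hK : 1 ≤ K) (hc1 : 1 ≤ c) (hcD : c ≤ D) {a b : V}
    (hab : a ≠ b) :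
    #((univ : Finset (V → Fin K)).filter (fun k => Bp c K (k a) (k b))) * K ≤
      3 * (2 * D + 1) * K ^ Fintype.card V := by
  have h1 : (univ : Finset (V → Fin K)).filter (fun k => Bp c K (k a) (k b)) ⊆
      (univ : Finset (Fin K)).biUnion (fun s =>
        ((univ : Finset (Fin K)).filter (fun t : Fin K => Bp c K s t)).biUnion (fun t =>
          (univ : Finset (V → Fin K)).filter (fun k => k a = s ∧ k b = t))) := by
    intro k hk
    rw [Finset.mem_biUnion]
    refine ⟨k a, Finset.mem_univ _, ?_⟩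
    rw [Finset.mem_biUnion]
    exact ⟨k b, Finset.mem_filter.2 ⟨Finset.mem_univ _, (Finset.mem_filter.1 hk).2⟩,
      Finset.mem_filter.2 ⟨Finset.mem_univ _, rfl, rfl⟩⟩
  have h2 : #((univ : Finset (V → Fin K)).filter (fun k => Bp c K (k a) (k b))) * K ^ 2 ≤
      K * (3 * (2 * D + 1)) * K ^ Fintype.card V := by
    calc #((univ : Finset (V → Fin K)).filter (fun k => Bp c K (k a) (k b))) * K ^ 2
        ≤ (∑ s : Fin K, ∑ t ∈ (univ : Finset (Fin K)).filter (fun t : Fin K => Bp c K s t),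
            #((univ : Finset (V → Fin K)).filter (fun k => k a = s ∧ k b = t))) * K ^ 2 := by
          refine Nat.mul_le_mul_right _ ?_
          refine (Finset.card_le_card h1).trans (Finset.card_biUnion_le.trans ?_)
          exact Finset.sum_le_sum fun s _ => Finset.card_biUnion_le
      _ = ∑ s : Fin K, ∑ _t ∈ (univ : Finset (Fin K)).filter (fun t : Fin K => Bp c K s t),
            K ^ Fintype.card V := by
          rw [Finset.sum_mul]
          refine Finset.sum_congr rfl fun s _ => ?_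
          rw [Finset.sum_mul]
          exact Finset.sum_congr rfl fun t _ => card_fix hab s t
      _ ≤ ∑ _s : Fin K, 3 * (2 * D + 1) * K ^ Fintype.card V := by
          refine Finset.sum_le_sum fun s _ => ?_
          rw [Finset.sum_const, smul_eq_mul]
          exact Nat.mul_le_mul_right _ (card_t hK hc1 hcD s)
      _ = _ := by
          rw [Finset.sum_const, Finset.card_univ, Fintype.card_fin, smul_eq_mul]
          ring
  have h3 : K * (#((univ : Finset (V → Fin K)).filter (fun k => Bp c K (k a) (k b))) * K) ≤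
      K * (3 * (2 * D + 1) * K ^ Fintype.card V) := by
    calc K * (#((univ : Finset (V → Fin K)).filter (fun k => Bp c K (k a) (k b))) * K)
        = #((univ : Finset (V → Fin K)).filter (fun k => Bp c K (k a) (k b))) * K ^ 2 := by ring
      _ ≤ K * (3 * (2 * D + 1)) * K ^ Fintype.card V := h2
      _ = _ := by ring
  exact Nat.le_of_mul_le_mul_left h3 (by omega)

open Classical in
theorem bad_count (H : Finset (V × V)) (c : V × V → ℕ) (D N K : ℕ) (hK : 1 ≤ K) (hN : 1 ≤ N)
    (hc : ∀ e ∈ H, 1 ≤ c e ∧ c e ≤ D) (hH : ∀ e ∈ H, e.1 ≠ e.2) :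
    (#((univ : Finset (V → Fin K)).filter (fun k => ¬ Good H c N K k)) : ℝ) * K ≤
      #H * (3 * (2 * D + 1)) * (K : ℝ) ^ Fintype.card V := by
  have h1 : (univ : Finset (V → Fin K)).filter (fun k => ¬ Good H c N K k) ⊆
      H.biUnion (fun e =>
        (univ : Finset (V → Fin K)).filter (fun k => Bp (c e) K (k e.1) (k e.2))) := by
    intro k hk
    have h2 := (Finset.mem_filter.1 hk).2
    unfold Good at h2
    push Not at h2
    obtain ⟨e, he, h3⟩ := h2
    rw [Finset.mem_biUnion]
    refine ⟨e, he, Finset.mem_filter.2 ⟨Finset.mem_univ _, bp_of_not hK hN ?_⟩⟩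
    push Not
    exact h3
  have h2 : #((univ : Finset (V → Fin K)).filter (fun k => ¬ Good H c N K k)) * K ≤
      #H * (3 * (2 * D + 1)) * K ^ Fintype.card V := by
    calc #((univ : Finset (V → Fin K)).filter (fun k => ¬ Good H c N K k)) * K
        ≤ (∑ e ∈ H, #((univ : Finset (V → Fin K)).filter
            (fun k => Bp (c e) K (k e.1) (k e.2)))) * K := by
          refine Nat.mul_le_mul_right _ ?_
          exact (Finset.card_le_card h1).trans Finset.card_biUnion_le
      _ ≤ ∑ _e ∈ H, 3 * (2 * D + 1) * K ^ Fintype.card V := by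
          rw [Finset.sum_mul]
          exact Finset.sum_le_sum fun e he => card_one hK (hc e he).1 (hc e he).2 (hH e he)
      _ = _ := by
          rw [Finset.sum_const, smul_eq_mul]
          ring
  have h3 : ((#((univ : Finset (V → Fin K)).filter (fun k => ¬ Good H c N K k)) * K : ℕ) : ℝ) ≤
      ((#H * (3 * (2 * D + 1)) * K ^ Fintype.card V : ℕ) : ℝ) := by exact_mod_cast h2
  push_cast at h3
  exact h3

end PoolPK
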