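import Pool.Agent.Work.MP_70e905_nt.PK.W.Cell
import Pool.Agent.Work.MP_70e905_nt.PK.W.Cnt

/-!
# PK/W/Main (size S-M): correlations on the cube with forms reduced modulo `N`

PROOF. `K > 4 D` large in terms of `n, hm, D, η`, `κ = 1 / (2 K)`, `η' = min 1 (η / 2)`, `N0 = 2 K`. By `cell_sum` and `∑_k vol k = N ^ card V` (`cell_sum` with `F = 1`, `card_box` type count)
`|∑_{cube} FW - N ^ n'| ≤ ∑_{k good} η' vol k + ∑_{k bad} (2 ^ #H * 2 + 1) vol k` (`good_cell`, `any_cell`, both sums are `≥ 0`). First sum `≤ η' N ^ n'`. `vol k ≤ (2 N / K) ^ n'`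
(`cA_len`) and `bad_count` give for the second `≤ (2 ^ (hm + 1) + 1) hm 3 (2 D + 1) 2 ^ n N ^ n' / K ≤ (η / 2) N ^ n'`.
-/

set_option autoImplicit false

namespace PoolPK

open Finset

private theorem vol_nonneg' {V : Type} [Fintype V] (N K : ℕ) (k : V → Fin K) :
    0 ≤ vol N K k := by
  unfold vol
  exact prod_nonneg fun i _ => Nat.cast_nonneg _

private theorem vol_sum {V : Type} [Fintype V] [DecidableEq V] (N K : ℕ) (hK : 1 ≤ K) :
    ∑ k : V → Fin K, vol N K k = (N : ℝ) ^ Fintype.card V := by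
  have h := cell_sum (V := V) N K hK (fun _ => (1 : ℝ))
  have h1 : ∑ _y ∈ cube V N, (1 : ℝ) = (N : ℝ) ^ Fintype.card V := by
    rw [sum_const, nsmul_eq_mul, mul_one, cube, Fintype.card_piFinset]
    simp
  rw [h1] at h
  rw [h]
  refine sum_congr rfl fun k _ => ?_
  rw [sum_const, nsmul_eq_mul, mul_one, cell, PoolPK.box, Fintype.card_piFinset, vol]
  push_cast
  refine prod_congr rfl fun i _ => ?_
  rw [Int.card_Ico, add_sub_cancel_left]
  simp

private theorem vol_le {V : Type} [Fintype V] (N K : ℕ) (hK : 1 ≤ K) (hN : 2 * K ≤ N)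
    (k : V → Fin K) : vol N K k ≤ (2 * N / K : ℝ) ^ Fintype.card V := by
  unfold vol
  have h : ∏ i : V, ((cA N K (k i + 1) - cA N K (k i) : ℕ) : ℝ) ≤
      ∏ _i : V, (2 * N / K : ℝ) :=
    prod_le_prod (fun i _ => Nat.cast_nonneg _) fun i _ => (cA_len N K (k i) hK hN).2
  rwa [prod_const, card_univ] at h

theorem wrap (n hm D : ℕ) (η : ℝ) (hη : 0 < η) : ∃ κ η' : ℝ, 0 < κ ∧ 0 < η' ∧ ∃ N0 : ℕ,
    ∀ N : ℕ, N0 ≤ N → ∀ (V : Type) [Fintype V] [DecidableEq V], Fintype.card V ≤ n →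
    ∀ (H : Finset (V × V)) (c : V × V → ℕ) (W : ℕ) (ν : ℤ → ℝ), #H ≤ hm →
    (∀ e ∈ H, 1 ≤ c e ∧ c e ≤ D) → (∀ e ∈ H, e.1 ≠ e.2) → (∀ m, 0 ≤ ν m) →
    BoxP H c N W ν κ η' → ∀ b : ℤ,
      |∑ y ∈ cube V N, FW H c N W b ν y - (N : ℝ) ^ Fintype.card V| ≤
        η * (N : ℝ) ^ Fintype.card V := by
  obtain ⟨K, hK4, hK1, hKη⟩ : ∃ K : ℕ, 4 * D < K ∧ 1 ≤ K ∧
      2 ^ (hm + 1) * (hm * (3 * (2 * D + 1)) * 2 ^ n) / (K : ℝ) ≤ η / 2 := by
    refine ⟨4 * D + 1 + ⌈2 ^ (hm + 1) * (hm * (3 * (2 * D + 1)) * 2 ^ n) / (η / 2)⌉₊,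
      by omega, by omega, ?_⟩
    rw [div_le_iff₀ (by positivity)]
    have h1 := Nat.le_ceil ((2 : ℝ) ^ (hm + 1) * (hm * (3 * (2 * D + 1)) * 2 ^ n) / (η / 2))
    rw [div_le_iff₀ (by positivity)] at h1
    push_cast
    have h2 : (0 : ℝ) ≤ (4 * D + 1) * (η / 2) := by positivity
    nlinarith
  refine ⟨1 / (2 * K), min 1 (η / 2), by positivity, by positivity, 2 * K, ?_⟩
  intro N hN V _ _ hV H c W ν hH hc hne hν hB b
  classical
  have hη1 : min 1 (η / 2) ≤ 1 := min_le_left _ _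
  have hη2 : min 1 (η / 2) ≤ η / 2 := min_le_right _ _
  have hK0 : (0 : ℝ) < K := by exact_mod_cast hK1
  have hN0 : 1 ≤ N := by omega
  obtain ⟨cc, hcc⟩ : ∃ cc : ℝ, cc = 2 ^ (hm + 1) := ⟨_, rfl⟩
  have hcc0 : 0 ≤ cc := by rw [hcc]; positivity
  have hcc1 : 1 ≤ cc := by rw [hcc]; exact one_le_pow₀ (by norm_num)
  have hterm : ∀ k : V → Fin K, |∑ y ∈ cell N K k, FW H c N W b ν y - vol N K k| ≤
      η / 2 * vol N K k + if Good H c N K k then 0 else cc * vol N K k := by
    intro k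
    have hv := vol_nonneg' N K k
    by_cases hk : Good H c N K k
    · rw [if_pos hk, add_zero]
      refine (good_cell H c N K W hK1 hN b ν _ hB k hk).trans ?_
      exact mul_le_mul_of_nonneg_right hη2 hv
    · rw [if_neg hk]
      have h1 := any_cell H c D N K W hK4 hN (fun e he => (hc e he).2) b ν hν _ hB k
      have h0 : 0 ≤ ∑ y ∈ cell N K k, FW H c N W b ν y :=
        sum_nonneg fun y _ => by
          unfold FW
          exact prod_nonneg fun e _ => hν _
      have h2 : (2 : ℝ) ^ #H * (1 + min 1 (η / 2)) ≤ cc := by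
        have h3 : (2 : ℝ) ^ #H ≤ 2 ^ hm := pow_le_pow_right₀ (by norm_num) hH
        have h4 : 1 + min 1 (η / 2) ≤ 2 := by linarith
        calc (2 : ℝ) ^ #H * (1 + min 1 (η / 2)) ≤ 2 ^ hm * 2 :=
              mul_le_mul h3 h4 (by positivity) (by positivity)
          _ = cc := by rw [hcc, pow_succ]
      have h5 : ∑ y ∈ cell N K k, FW H c N W b ν y ≤ cc * vol N K k :=
        h1.trans (mul_le_mul_of_nonneg_right h2 hv)
      have h6 : vol N K k ≤ cc * vol N K k := le_mul_of_one_le_left hv hcc1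
      have h7 : 0 ≤ η / 2 * vol N K k := by positivity
      rw [abs_le]
      constructor <;> linarith
  have hbad : ∑ k : V → Fin K, (if Good H c N K k then 0 else cc * vol N K k) ≤
      η / 2 * (N : ℝ) ^ Fintype.card V := by
    have h1 : ∑ k : V → Fin K, (if Good H c N K k then 0 else cc * vol N K k) =
        ∑ k ∈ (univ : Finset (V → Fin K)).filter (fun k => ¬ Good H c N K k),
          cc * vol N K k := by
      rw [sum_filter]
      refine sum_congr rfl fun k _ => ?_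
      by_cases hk : Good H c N K k
      · rw [if_pos hk, if_neg (not_not.2 hk)]
      · rw [if_neg hk, if_pos hk]
    rw [h1]
    have h2 : ∑ k ∈ (univ : Finset (V → Fin K)).filter (fun k => ¬ Good H c N K k),
        cc * vol N K k ≤ (#((univ : Finset (V → Fin K)).filter
          (fun k => ¬ Good H c N K k)) : ℝ) * (cc * (2 * N / K : ℝ) ^ Fintype.card V) := by
      rw [← nsmul_eq_mul]
      exact sum_le_card_nsmul _ _ _ fun k _ =>
        mul_le_mul_of_nonneg_left (vol_le N K hK1 hN k) hcc0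
    refine h2.trans ?_
    have h3 : (#((univ : Finset (V → Fin K)).filter (fun k => ¬ Good H c N K k)) : ℝ) * K ≤
        #H * (3 * (2 * D + 1)) * (K : ℝ) ^ Fintype.card V := by
      exact bad_count H c D N K hK1 hN0 hc hne
    obtain ⟨B, hBd⟩ : ∃ B : ℝ,
        B = #((univ : Finset (V → Fin K)).filter (fun k => ¬ Good H c N K k)) := ⟨_, rfl⟩
    rw [← hBd] at h3 ⊢
    have hH' : (#H : ℝ) ≤ hm := by exact_mod_cast hH
    have h2V : (2 : ℝ) ^ Fintype.card V ≤ 2 ^ n := pow_le_pow_right₀ (by norm_num) hV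
    have h4 : B * (2 * N / K : ℝ) ^ Fintype.card V ≤
        (hm * (3 * (2 * D + 1)) * 2 ^ n) / K * (N : ℝ) ^ Fintype.card V := by
      rw [div_pow, mul_pow]
      have hKp : (0 : ℝ) < (K : ℝ) ^ Fintype.card V := by positivity
      have e1 : B * (2 ^ Fintype.card V * (N : ℝ) ^ Fintype.card V / (K : ℝ) ^ Fintype.card V) =
          (B * K) / (K : ℝ) ^ Fintype.card V * (2 ^ Fintype.card V *
            (N : ℝ) ^ Fintype.card V) / K := by
        field_simp
      rw [e1]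
      have e2 : (B * K) / (K : ℝ) ^ Fintype.card V ≤ hm * (3 * (2 * D + 1)) := by
        rw [div_le_iff₀ hKp]
        refine h3.trans ?_
        refine mul_le_mul_of_nonneg_right ?_ hKp.le
        exact mul_le_mul_of_nonneg_right hH' (by positivity)
      have e3 : (hm * (3 * (2 * D + 1)) * 2 ^ n) / K * (N : ℝ) ^ Fintype.card V =
          (hm * (3 * (2 * D + 1))) * (2 ^ n * (N : ℝ) ^ Fintype.card V) / K := by
        ring
      rw [e3]
      refine div_le_div_of_nonneg_right ?_ hK0.le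
      refine mul_le_mul e2 ?_ (by positivity) (by positivity)
      exact mul_le_mul_of_nonneg_right h2V (by positivity)
    calc B * (cc * (2 * N / K : ℝ) ^ Fintype.card V)
        = cc * (B * (2 * N / K : ℝ) ^ Fintype.card V) := by ring
      _ ≤ cc * ((hm * (3 * (2 * D + 1)) * 2 ^ n) / K * (N : ℝ) ^ Fintype.card V) :=
          mul_le_mul_of_nonneg_left h4 hcc0
      _ = (2 ^ (hm + 1) * (hm * (3 * (2 * D + 1)) * 2 ^ n) / (K : ℝ)) *
            (N : ℝ) ^ Fintype.card V := by rw [hcc]; ring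
      _ ≤ η / 2 * (N : ℝ) ^ Fintype.card V := mul_le_mul_of_nonneg_right hKη (by positivity)
  calc |∑ y ∈ cube V N, FW H c N W b ν y - (N : ℝ) ^ Fintype.card V|
      = |∑ k : V → Fin K, (∑ y ∈ cell N K k, FW H c N W b ν y - vol N K k)| := by
        rw [cell_sum N K hK1, ← vol_sum (V := V) N K hK1, sum_sub_distrib]
    _ ≤ ∑ k : V → Fin K, |∑ y ∈ cell N K k, FW H c N W b ν y - vol N K k| :=
        abs_sum_le_sum_abs _ _
    _ ≤ ∑ k : V → Fin K, (η / 2 * vol N K k + if Good H c N K k then 0 else cc * vol N K k) :=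
        sum_le_sum fun k _ => hterm k
    _ = η / 2 * (N : ℝ) ^ Fintype.card V +
        ∑ k : V → Fin K, (if Good H c N K k then 0 else cc * vol N K k) := by
        rw [sum_add_distrib, ← mul_sum, vol_sum (V := V) N K hK1]
    _ ≤ η / 2 * (N : ℝ) ^ Fintype.card V + η / 2 * (N : ℝ) ^ Fintype.card V := by linarith
    _ = η * (N : ℝ) ^ Fintype.card V := by ring

end PoolPK
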