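import Pool.Agent.Work.MP_70e905_nt.PK.W.Re
import Pool.Agent.Work.MP_70e905_nt.PK.W.Main
import Pool.Agent.Work.MP_70e905_nt.PK.P.Maj

/-!
# PK/W/LFN (size S-M): the majorant on `ZMod N`

PROOF. `D = ∏_{i < j} (e j - e i)` (or a factorial) as a natural number. `a` from `maj 8 24`. Given `η`: `wrap 8 24 D η` gives `κ, η', N0`; `maj` for `κ, η'` gives `w0`; take
`w ≥ max w0 D`, `M = N ≥ max` of the bounds, `N > D`; `ν` from `maj`. For `S ⊆ PD` let `H = S.image (src, tgt)`: `img_ok` with `W = primorial w` (its prime factors are `≤ w`), so `BoxP H (cD e D) N W ν κ η'`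
holds by `maj` (`psi b (fun u => W * cD e D u)`); `wrap` and `av_eq`: the mean is within `η` of `1` (`card V = 8`).
-/

set_option autoImplicit false

namespace PoolPK

open Finset

open Pool.Agent.Work.MP_70e905_nt.PK in
theorem lfN : ∃ a : ℝ, 0 < a ∧ ∀ e : Fin 4 → ℤ, StrictMono e → ∀ η : ℝ, 0 < η → ∃ w0 : ℕ,
    ∀ w : ℕ, w0 ≤ w → ∃ N0 : ℕ, ∀ (N : ℕ) [NeZero N] [Fact N.Prime], N0 ≤ N →
    ∃ ν : ℤ → ℝ, (∀ m, 0 ≤ ν m) ∧
      (∀ p : ℕ, p.Prime → N ≤ p →
        a * (Real.log N * ∏ q ∈ prs 0 w, (1 - 1 / (q : ℝ))) ≤ ν p) ∧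
      ∀ b : ℤ, LF η (cay e (fun m : ZMod N => ν (b + primorial w * (m.val : ℤ)))) := by
  obtain ⟨a, ha, hmaj⟩ := maj 8 24
  refine ⟨a, ha, fun e he η hη => ?_⟩
  obtain ⟨D, hD, hde⟩ : ∃ D : ℕ, 0 < D ∧ ∀ i j, i < j → (e j - e i) ∣ (D : ℤ) := by
    refine ⟨∏ p ∈ (univ : Finset (Fin 4 × Fin 4)).filter (fun p => p.1 < p.2),
      (e p.2 - e p.1).toNat, ?_, ?_⟩
    · refine prod_pos fun p hp => ?_
      have := he (mem_filter.1 hp).2
      omega
    · intro i j hij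
      have h1 : (e j - e i).toNat ∣ ∏ p ∈ (univ : Finset (Fin 4 × Fin 4)).filter
          (fun p => p.1 < p.2), (e p.2 - e p.1).toNat :=
        dvd_prod_of_mem (fun p : Fin 4 × Fin 4 => (e p.2 - e p.1).toNat)
          (mem_filter.2 ⟨mem_univ (i, j), hij⟩)
      have h2 : ((e j - e i).toNat : ℤ) = e j - e i := by
        have := he hij
        exact Int.toNat_of_nonneg (by omega)
      rw [← h2]
      exact_mod_cast h1
  obtain ⟨κ, η', hκ, hη', N0, hwrap⟩ := wrap 8 24 D η hη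
  obtain ⟨w0, hw0⟩ := hmaj κ η' hκ hη'
  refine ⟨max w0 D, fun w hw => ?_⟩
  obtain ⟨M0, hM0⟩ := hw0 w (le_trans (le_max_left _ _) hw)
  refine ⟨max (max N0 M0) (D + 1), fun N _ _ hN => ?_⟩
  have hN1 : N0 ≤ N := le_trans (le_trans (le_max_left _ _) (le_max_left _ _)) hN
  have hN2 : M0 ≤ N := le_trans (le_trans (le_max_right _ _) (le_max_left _ _)) hN
  have hN3 : D < N := le_trans (le_max_right _ _) hN
  obtain ⟨ν, hν0, hνp, hνbox⟩ := hM0 N hN2
  refine ⟨ν, hν0, hνp, fun b S hS => ?_⟩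
  have hpr : ∀ p : ℕ, p.Prime → p ∣ primorial w → p ≤ w := by
    intro p hp hdvd
    unfold primorial at hdvd
    obtain ⟨q, hq, hpq⟩ := (hp.prime.dvd_finsetProd_iff _).1 hdvd
    rw [mem_filter, mem_range] at hq
    have := Nat.le_of_dvd hq.2.pos hpq
    omega
  obtain ⟨hOk, hcard, hcD⟩ := img_ok e he D hD hde w (primorial w)
    (le_trans (le_max_right _ _) hw) hpr S hS
  have hV : Fintype.card (Fin 4 × Bool) = 8 := by simp [Fintype.card_prod]
  have hbox : BoxP (S.image (fun s => (src s, tgt s))) (cD e D) N (primorial w) ν κ η' := by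
    intro b A l hl
    exact hνbox (Fin 4 × Bool) hV.le _ b (fun u => (primorial w : ℤ) * cD e D u) hOk hcard A l hl
  have hw := hwrap N hN1 (Fin 4 × Bool) hV.le _ (cD e D) (primorial w) ν hcard hcD
    (fun u hu => hOk.loop u hu) hν0 hbox b
  rw [hV] at hw
  rw [av_eq N e he D hD hN3 hde (primorial w) b ν S hS]
  have hNpos : (0 : ℝ) < (N : ℝ) ^ 8 := by
    have : 0 < N := by omega
    positivity
  have e1 : (∑ y ∈ cube (Fin 4 × Bool) N,
      FW (S.image (fun s => (src s, tgt s))) (cD e D) N (primorial w) b ν y) / (N : ℝ) ^ 8 - 1 =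
      (∑ y ∈ cube (Fin 4 × Bool) N,
      FW (S.image (fun s => (src s, tgt s))) (cD e D) N (primorial w) b ν y - (N : ℝ) ^ 8) /
        (N : ℝ) ^ 8 := by
    rw [sub_div, div_self hNpos.ne']
  rw [e1, abs_div, abs_of_pos hNpos, div_le_iff₀ hNpos]
  exact hw

end PoolPK
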