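import Pool.Agent.Work.MP_70e905_nt.PK.W.Defs

/-!
# PK/W/Cell (size M): one cell

PROOF. Let `l i = cA (k i + 1) - cA (k i)`; `N / K - 1 ≤ l i ≤ N / K + 1`, so `N / (2 K) ≤ l i ≤ 2 N / K` for `N ≥ 2 K`
(`cA_len`). `cell_sum`: the intervals `[cA k, cA (k + 1))`, `k < K`, are a partition of `[0, N)` (`cA 0 = 0`, `cA K = N`, monotone), so
`cube V N` is the disjoint union of the cells (`Fintype.piFinset` of disjoint unions: `Finset.prod_univ_sum` type, or `Finset.sum_fiberwise` with the
index map `y ↦ k`). `good_cell`: on the cell `(c e (y e.2 - y e.1)) % N = c e (y e.2 - y e.1) - N τ e`, so the argument of `ν` is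
`psi b' (W c) e y` with `b' e = b - W N τ e`; use `BoxP` (`κ = 1 / (2 K)`). `any_cell`: let `m e = c e (cA (k e.2) - cA (k e.1 + 1) + 1)`, the minimum of the form; on the cell the form lies in
`[m e, m e + 2 D * 2 N / K] ⊆ [m e, m e + N)` as `K > 4 D`; so its quotient by `N` is `τ e = m e / N` or `τ e + 1`, and (`ν ≥ 0`)
`ν (b + W (form % N)) ≤ ν (b - W N τ e + W form) + ν (b - W N (τ e + 1) + W form)`. Expand the product over `H` (`Finset.prod_add` or `Finset.prod_univ_sum`) in `2 ^ #H` products,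
each of which has sum `≤ (1 + η') vol` over the cell by `BoxP`. (If some form has `e ∈ H` and the cell is empty there is nothing to prove.)
-/

set_option autoImplicit false

namespace PoolPK

open Finset

variable {V : Type} [Fintype V] [DecidableEq V]

private theorem cA_mono (N K : ℕ) {j k : ℕ} (h : j ≤ k) : cA N K j ≤ cA N K k :=
  Nat.div_le_div_right (Nat.mul_le_mul_right N h)

private theorem mem_cell' {N K : ℕ} {k : V → Fin K} {y : V → ℤ} :
    y ∈ cell N K k ↔ ∀ i, (cA N K (k i) : ℤ) ≤ y i ∧ y i < cA N K (k i + 1) := by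
  unfold cell box
  rw [Fintype.mem_piFinset]
  refine forall_congr' fun i => ?_
  rw [Finset.mem_Ico]
  have h := cA_mono N K (Nat.le_succ (k i : ℕ))
  have h' : (k i : ℕ).succ = (k i : ℕ) + 1 := rfl
  rw [h'] at h
  beta_reduce
  omega

theorem cA_len (N K k : ℕ) (hK : 1 ≤ K) (hN : 2 * K ≤ N) :
    (N : ℝ) / (2 * K) ≤ ((cA N K (k + 1) - cA N K k : ℕ) : ℝ) ∧
      ((cA N K (k + 1) - cA N K k : ℕ) : ℝ) ≤ 2 * N / K := by
  have hK0 : (0 : ℝ) < K := by exact_mod_cast hK
  have hNK : 2 * (K : ℝ) ≤ N := by exact_mod_cast hN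
  rw [Nat.cast_sub (cA_mono N K (Nat.le_succ k))]
  have e1 : ∀ j : ℕ, (cA N K j : ℝ) ≤ j * N / K ∧ (j * N / K : ℝ) < cA N K j + 1 := by
    intro j
    have h1 : K * (j * N / K) ≤ j * N := Nat.mul_div_le _ _
    have h2 : j * N < K * (j * N / K + 1) := Nat.lt_mul_div_succ _ (by omega)
    unfold cA
    constructor
    · rw [le_div_iff₀ hK0, mul_comm]
      exact_mod_cast h1
    · rw [div_lt_iff₀ hK0, mul_comm]
      calc (N : ℝ) * j = ((j * N : ℕ) : ℝ) := by push_cast; ring
        _ < ((K * (j * N / K + 1) : ℕ) : ℝ) := by exact_mod_cast h2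
        _ = _ := by push_cast; ring
  have ha := e1 k
  have hb := e1 (k + 1)
  have e2 : (((k + 1 : ℕ) : ℝ) * N / K) = k * N / K + N / K := by
    push_cast
    ring
  rw [e2] at hb
  have e3 : (2 : ℝ) ≤ N / K := by
    rw [le_div_iff₀ hK0]
    exact hNK
  have e4 : (N : ℝ) / (2 * K) = N / K / 2 := by
    field_simp
  have e5 : 2 * (N : ℝ) / K = 2 * (N / K) := by ring
  rw [e4, e5]
  constructor <;> linarith

private theorem exists_idx (N K : ℕ) (hK : 1 ≤ K) (z : ℤ) (h0 : 0 ≤ z) (h1 : z < N) :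
    ∃ k : Fin K, (cA N K k : ℤ) ≤ z ∧ z < cA N K (k + 1) := by
  classical
  have hKN : cA N K K = N := by
    unfold cA
    exact Nat.mul_div_cancel_left N (by omega)
  have hex : ∃ k : ℕ, z < cA N K (k + 1) := ⟨K - 1, by
    rw [show K - 1 + 1 = K from by omega, hKN]
    exact h1⟩
  have hle : Nat.find hex ≤ K - 1 := Nat.find_min' hex (by
    rw [show K - 1 + 1 = K from by omega, hKN]
    exact h1)
  refine ⟨⟨Nat.find hex, by omega⟩, ?_, Nat.find_spec hex⟩
  change (cA N K (Nat.find hex) : ℤ) ≤ z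
  rcases Nat.eq_zero_or_pos (Nat.find hex) with h | h
  · rw [h]
    unfold cA
    simpa using h0
  · have h2 := Nat.find_min hex (m := Nat.find hex - 1) (by omega)
    rw [show Nat.find hex - 1 + 1 = Nat.find hex from by omega] at h2
    exact not_lt.1 h2

theorem cell_sum (N K : ℕ) (hK : 1 ≤ K) (F : (V → ℤ) → ℝ) :
    ∑ y ∈ cube V N, F y = ∑ k : V → Fin K, ∑ y ∈ cell N K k, F y := by
  classical
  have hdis : ((univ : Finset (V → Fin K)) : Set (V → Fin K)).PairwiseDisjoint
      (fun k => cell N K k) := by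
    intro k _ k' _ hkk
    change Disjoint (cell N K k) (cell N K k')
    rw [Finset.disjoint_left]
    intro y hy hy'
    apply hkk
    funext i
    have h1 := mem_cell'.1 hy i
    have h2 := mem_cell'.1 hy' i
    rcases lt_trichotomy (k i) (k' i) with h | h | h
    · have h3 : cA N K (k i + 1) ≤ cA N K (k' i) := cA_mono N K (by
        have : (k i : ℕ) < k' i := h
        omega)
      have h4 : ((cA N K (k i + 1) : ℕ) : ℤ) ≤ cA N K (k' i) := by exact_mod_cast h3
      omega
    · exact h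
    · have h3 : cA N K (k' i + 1) ≤ cA N K (k i) := cA_mono N K (by
        have : (k' i : ℕ) < k i := h
        omega)
      have h4 : ((cA N K (k' i + 1) : ℕ) : ℤ) ≤ cA N K (k i) := by exact_mod_cast h3
      omega
  rw [← Finset.sum_biUnion hdis]
  refine Finset.sum_congr ?_ fun _ _ => rfl
  ext y
  rw [Finset.mem_biUnion]
  unfold cube
  rw [Fintype.mem_piFinset]
  constructor
  · intro h
    have h' : ∀ i, ∃ k : Fin K, (cA N K k : ℤ) ≤ y i ∧ y i < cA N K (k + 1) := by
      intro i
      have := Finset.mem_Ico.1 (h i)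
      exact exists_idx N K hK (y i) this.1 this.2
    choose k hk using h'
    exact ⟨k, Finset.mem_univ _, mem_cell'.2 hk⟩
  · rintro ⟨k, -, hk⟩ i
    have h1 := mem_cell'.1 hk i
    rw [Finset.mem_Ico]
    have h2 : cA N K (k i + 1) ≤ N := by
      have h3 : cA N K (k i + 1) ≤ cA N K K := cA_mono N K (by
        have := (k i).2
        omega)
      have hKN : cA N K K = N := by
        unfold cA
        exact Nat.mul_div_cancel_left N (by omega)
      rwa [hKN] at h3
    omega

private theorem hB_apply {H : Finset (V × V)} {c : V × V → ℕ} {N K W : ℕ} (hK : 1 ≤ K)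
    (hN : 2 * K ≤ N)
    {ν : ℤ → ℝ} {η : ℝ} (hB : BoxP H c N W ν (1 / (2 * K)) η) (k : V → Fin K)
    (b : V × V → ℤ) :
    |∑ v ∈ cell N K k, ∏ e ∈ H, ν (psi b (fun e => (W : ℤ) * c e) e v) - vol N K k| ≤
      η * vol N K k := by
  refine hB b _ _ fun i => ?_
  have h := (cA_len N K (k i) hK hN).1
  refine le_trans (le_of_eq ?_) h
  ring

theorem good_cell (H : Finset (V × V)) (c : V × V → ℕ) (N K W : ℕ) (hK : 1 ≤ K) (hN : 2 * K ≤ N)
    (b : ℤ) (ν : ℤ → ℝ) (η : ℝ) (hB : BoxP H c N W ν (1 / (2 * K)) η) (k : V → Fin K)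
    (hk : Good H c N K k) :
    |∑ y ∈ cell N K k, FW H c N W b ν y - vol N K k| ≤ η * vol N K k := by
  unfold Good at hk
  choose! τ hτ using hk
  have h := hB_apply hK hN hB k (fun e => b - W * (N * τ e))
  have e1 : ∑ y ∈ cell N K k, FW H c N W b ν y = ∑ v ∈ cell N K k,
      ∏ e ∈ H, ν (psi (fun e => b - W * (N * τ e)) (fun e => (W : ℤ) * c e) e v) := by
    refine Finset.sum_congr rfl fun y hy => ?_
    unfold FW
    refine Finset.prod_congr rfl fun e he => ?_
    congr 1
    unfold psi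
    rw [Int.emod_def, hτ e he y hy]
    ring
  rw [e1]
  exact h

theorem any_cell (H : Finset (V × V)) (c : V × V → ℕ) (D N K W : ℕ) (hK : 4 * D < K)
    (hN : 2 * K ≤ N) (hc : ∀ e ∈ H, c e ≤ D) (b : ℤ) (ν : ℤ → ℝ) (hν : ∀ m, 0 ≤ ν m) (η : ℝ)
    (hB : BoxP H c N W ν (1 / (2 * K)) η) (k : V → Fin K) :
    ∑ y ∈ cell N K k, FW H c N W b ν y ≤ 2 ^ #H * (1 + η) * vol N K k := by
  classical
  have hK1 : 1 ≤ K := by omega
  have hK0 : (0 : ℝ) < K := by exact_mod_cast hK1
  have hN0 : 0 < N := by omega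
  set m : V × V → ℤ := fun e =>
    (c e : ℤ) * ((cA N K (k e.2) : ℤ) - cA N K (k e.1 + 1) + 1) with hm
  set τ : V × V → ℤ := fun e => m e / N with hτ
  -- the quotient is `τ e` or `τ e + 1`
  have hq : ∀ e ∈ H, ∀ y ∈ cell N K k, ((c e : ℤ) * (y e.2 - y e.1)) / (N : ℤ) = τ e ∨
      ((c e : ℤ) * (y e.2 - y e.1)) / (N : ℤ) = τ e + 1 := by
    intro e he y hy
    have h1 := mem_cell'.1 hy e.1
    have h2 := mem_cell'.1 hy e.2
    have l1 := (cA_len N K (k e.1) hK1 hN).2
    have l2 := (cA_len N K (k e.2) hK1 hN).2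
    rw [Nat.cast_sub (cA_mono N K (Nat.le_succ _))] at l1 l2
    have hce : (c e : ℝ) ≤ D := by exact_mod_cast hc e he
    have hlow : m e ≤ (c e : ℤ) * (y e.2 - y e.1) := by
      rw [hm]
      exact mul_le_mul_of_nonneg_left (by omega) (by positivity)
    have hupp : (c e : ℤ) * (y e.2 - y e.1) < m e + N := by
      have e1 : (c e : ℤ) * (y e.2 - y e.1) - m e ≤ (c e : ℤ) *
          (((cA N K (k e.2 + 1) : ℤ) - cA N K (k e.2)) +
            ((cA N K (k e.1 + 1) : ℤ) - cA N K (k e.1))) := by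
        rw [hm]
        simp only
        rw [← mul_sub]
        exact mul_le_mul_of_nonneg_left (by omega) (by positivity)
      have e2 : ((c e : ℤ) * (((cA N K (k e.2 + 1) : ℤ) - cA N K (k e.2)) +
            ((cA N K (k e.1 + 1) : ℤ) - cA N K (k e.1))) : ℤ) < N := by
        have e3 : (((c e : ℤ) * (((cA N K (k e.2 + 1) : ℤ) - cA N K (k e.2)) +
            ((cA N K (k e.1 + 1) : ℤ) - cA N K (k e.1))) : ℤ) : ℝ) < N := by
          push_cast
          have e4 : (c e : ℝ) * (((cA N K (k e.2 + 1) : ℝ) - cA N K (k e.2)) +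
            ((cA N K (k e.1 + 1) : ℝ) - cA N K (k e.1))) ≤ D * (2 * N / K + 2 * N / K) := by
            refine mul_le_mul hce (add_le_add l2 l1) ?_ (by positivity)
            have m1 : (cA N K (k e.2) : ℝ) ≤ cA N K (k e.2 + 1) := by
              exact_mod_cast cA_mono N K (Nat.le_succ _)
            have m2 : (cA N K (k e.1) : ℝ) ≤ cA N K (k e.1 + 1) := by
              exact_mod_cast cA_mono N K (Nat.le_succ _)
            linarith
          refine e4.trans_lt ?_
          have e5 : (D : ℝ) * (2 * N / K + 2 * N / K) = (4 * D) * N / K := by ring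
          rw [e5, div_lt_iff₀ hK0, mul_comm]
          have e6 : (4 * D : ℝ) < K := by exact_mod_cast hK
          have e7 : (0 : ℝ) < N := by exact_mod_cast hN0
          exact mul_lt_mul_of_pos_left e6 e7
        exact_mod_cast e3
      linarith
    have hNz : (0 : ℤ) < N := by exact_mod_cast hN0
    have d1 : τ e ≤ ((c e : ℤ) * (y e.2 - y e.1)) / (N : ℤ) := Int.ediv_le_ediv hNz hlow
    have d2 : ((c e : ℤ) * (y e.2 - y e.1)) / (N : ℤ) ≤ (m e + N) / (N : ℤ) :=
      Int.ediv_le_ediv hNz hupp.le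
    have d3 : (m e + N) / (N : ℤ) = τ e + 1 := by
      rw [Int.add_ediv_of_dvd_right (dvd_refl _), Int.ediv_self hNz.ne']
    omega
  have hpt : ∀ y ∈ cell N K k, FW H c N W b ν y ≤ ∑ t ∈ H.powerset, ∏ e ∈ H,
      ν (psi (fun e => if e ∈ t then b - W * (N * τ e) else b - W * (N * (τ e + 1)))
        (fun e => (W : ℤ) * c e) e y) := by
    intro y hy
    have e1 : FW H c N W b ν y ≤ ∏ e ∈ H, (ν (b - W * (N * τ e) + (W : ℤ) * c e *
        (y e.2 - y e.1)) + ν (b - W * (N * (τ e + 1)) + (W : ℤ) * c e * (y e.2 - y e.1))) := by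
      unfold FW
      refine Finset.prod_le_prod (fun e _ => hν _) fun e he => ?_
      rcases hq e he y hy with h | h
      · have e2 : b + (W : ℤ) * (((c e : ℤ) * (y e.2 - y e.1)) % (N : ℤ)) =
            b - W * (N * τ e) + (W : ℤ) * c e * (y e.2 - y e.1) := by
          rw [Int.emod_def, h]
          ring
        rw [e2]
        exact le_add_of_nonneg_right (hν _)
      · have e2 : b + (W : ℤ) * (((c e : ℤ) * (y e.2 - y e.1)) % (N : ℤ)) =
            b - W * (N * (τ e + 1)) + (W : ℤ) * c e * (y e.2 - y e.1) := by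
          rw [Int.emod_def, h]
          ring
        rw [e2]
        exact le_add_of_nonneg_left (hν _)
    refine e1.trans (le_of_eq ?_)
    rw [Finset.prod_add]
    refine Finset.sum_congr rfl fun t ht => ?_
    rw [Finset.mem_powerset] at ht
    rw [← Finset.prod_sdiff ht, mul_comm]
    congr 1
    · refine Finset.prod_congr rfl fun e he => ?_
      unfold psi
      beta_reduce
      rw [if_neg (Finset.mem_sdiff.1 he).2]
    · refine Finset.prod_congr rfl fun e he => ?_
      unfold psi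
      beta_reduce
      rw [if_pos he]
  calc ∑ y ∈ cell N K k, FW H c N W b ν y
      ≤ ∑ y ∈ cell N K k, ∑ t ∈ H.powerset, ∏ e ∈ H,
        ν (psi (fun e => if e ∈ t then b - W * (N * τ e) else b - W * (N * (τ e + 1)))
          (fun e => (W : ℤ) * c e) e y) := Finset.sum_le_sum hpt
    _ = ∑ t ∈ H.powerset, ∑ y ∈ cell N K k, ∏ e ∈ H,
        ν (psi (fun e => if e ∈ t then b - W * (N * τ e) else b - W * (N * (τ e + 1)))
          (fun e => (W : ℤ) * c e) e y) := Finset.sum_comm
    _ ≤ ∑ _t ∈ H.powerset, (1 + η) * vol N K k := by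
        refine Finset.sum_le_sum fun t _ => ?_
        have h := hB_apply hK1 hN hB k
          (fun e => if e ∈ t then b - W * (N * τ e) else b - W * (N * (τ e + 1)))
        have h2 := (abs_le.1 h).2
        linarith
    _ = _ := by
        rw [Finset.sum_const, Finset.card_powerset, nsmul_eq_mul]
        push_cast
        ring

end PoolPK
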