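import Pool.Agent.Work.MP_70e905_nt.PK.P.Defs

/-!
# PK/W/Defs : cells of the cube `[0, N) ^ V` (fixed file, do not change)
-/

set_option autoImplicit false

namespace PoolPK

open Finset

variable {V : Type} [Fintype V] [DecidableEq V]

/-- boundaries of the cells: `K` intervals of length about `N / K` -/
def cA (N K k : ℕ) : ℕ := k * N / K

/-- the cell with the index `k` -/
noncomputable def cell (N K : ℕ) (k : V → Fin K) : Finset (V → ℤ) :=
  box (fun i => (cA N K (k i) : ℤ)) (fun i => cA N K (k i + 1) - cA N K (k i))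

/-- volume of a cell -/
def vol (N K : ℕ) (k : V → Fin K) : ℝ := ∏ i, ((cA N K (k i + 1) - cA N K (k i) : ℕ) : ℝ)

/-- on the cell `k` none of the forms `c e * (y e.2 - y e.1)`, `e ∈ H`, crosses a multiple of `N` -/
def Good (H : Finset (V × V)) (c : V × V → ℕ) (N K : ℕ) (k : V → Fin K) : Prop :=
  ∀ e ∈ H, ∃ τ : ℤ, ∀ y ∈ cell N K k, ((c e : ℤ) * (y e.2 - y e.1)) / (N : ℤ) = τ

/-- the product of the weights at the forms reduced modulo `N` -/
noncomputable def FW (H : Finset (V × V)) (c : V × V → ℕ) (N W : ℕ) (b : ℤ) (ν : ℤ → ℝ)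
    (y : V → ℤ) : ℝ :=
  ∏ e ∈ H, ν (b + W * (((c e : ℤ) * (y e.2 - y e.1)) % (N : ℤ)))

/-- the correlation estimate for `H` and the coefficients `W * c e` in all boxes with sides at
least `κ * N` -/
def BoxP (H : Finset (V × V)) (c : V × V → ℕ) (N W : ℕ) (ν : ℤ → ℝ) (κ η : ℝ) : Prop :=
  ∀ (b : V × V → ℤ) (A : V → ℤ) (l : V → ℕ), (∀ i, κ * N ≤ (l i : ℝ)) →
    |∑ v ∈ box A l, ∏ e ∈ H, ν (psi b (fun e => (W : ℤ) * c e) e v) - ∏ i, (l i : ℝ)| ≤
      η * ∏ i, (l i : ℝ)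

end PoolPK
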