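import Pool.Agent.Work.MP_70e905_nt.PK.W.Defs
import Pool.Agent.Work.MP_70e905_nt.PK.Defs

/-!
# PK/W/Re (size M): the linear forms condition on `ZMod N` as a sum over `[0, N) ^ 8`

PROOF. `D` is a unit modulo `N` (`N` prime, `0 < D < N`), so `y ↦ (fun v => (D : ZMod N) * (y v : ZMod N))` is a bijection of `cube V N` onto `V → ZMod N`
(`V = Fin 4 × Bool`). For `s = ((i, j), (a, b)) ∈ S ⊆ PD`, `i < j`, `d = e j - e i > 0`, `d ∣ D`, `c₀ = D / d`: `(x (tgt s) - x (src s)) * dv N e s.1 = D (y (tgt s) - y (src s)) d⁻¹ = c₀ (y (tgt s) - y (src s))` in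
`ZMod N` (`d ≠ 0` in `ZMod N` as `0 < d ≤ D < N`), and the `val` of this is `(c₀ (y (tgt s) - y (src s))) % N` (`ZMod.val_intCast`). `s ↦ (src s, tgt s)` is injective, so the product over
`S` is the product over `H = S.image (src, tgt)`. `card (V → ZMod N) = N ^ 8`.
-/

set_option autoImplicit false

namespace PoolPK

open Finset

open Pool.Agent.Work.MP_70e905_nt.PK in
/-- the coefficients `D / (e j - e i)` -/
def cD (e : Fin 4 → ℤ) (D : ℕ) (u : (Fin 4 × Bool) × (Fin 4 × Bool)) : ℕ :=
  ((D : ℤ) / (e u.2.1 - e u.1.1)).toNat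

open Pool.Agent.Work.MP_70e905_nt.PK in
private lemma re_cD_mul {e : Fin 4 → ℤ} (he : StrictMono e) {D : ℕ} (hD : 0 < D)
    (hde : ∀ i j, i < j → (e j - e i) ∣ (D : ℤ)) {s : DE} (hs : s ∈ PD) :
    (cD e D (src s, tgt s) : ℤ) * (e s.1.2 - e s.1.1) = D := by
  have hlt : s.1.1 < s.1.2 := by
    unfold PD at hs
    exact (mem_filter.1 hs).2
  have hpos : 0 < e s.1.2 - e s.1.1 := sub_pos.2 (he hlt)
  have hdvd := hde _ _ hlt
  unfold cD src tgt
  simp only
  rw [Int.toNat_of_nonneg (Int.ediv_nonneg (by positivity) hpos.le)]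
  exact Int.ediv_mul_cancel hdvd

open Pool.Agent.Work.MP_70e905_nt.PK in
private lemma re_inj : Function.Injective (fun s : DE => (src s, tgt s)) := by
  rintro ⟨⟨i, j⟩, a, b⟩ ⟨⟨i', j'⟩, a', b'⟩ h
  simp only [src, tgt, Prod.mk.injEq] at h
  obtain ⟨⟨h1, h2⟩, h3, h4⟩ := h
  subst h1; subst h2; subst h3; subst h4
  rfl

open Pool.Agent.Work.MP_70e905_nt.PK in
theorem av_eq (N : ℕ) [NeZero N] [Fact N.Prime] (e : Fin 4 → ℤ) (he : StrictMono e) (D : ℕ)
    (hD : 0 < D) (hDN : D < N) (hde : ∀ i j, i < j → (e j - e i) ∣ (D : ℤ)) (W : ℕ) (b : ℤ)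
    (ν : ℤ → ℝ) (S : Finset DE) (hS : S ⊆ PD) :
    av (fun x : Fin 4 × Bool → ZMod N =>
      ∏ s ∈ S, cay e (fun m => ν (b + W * (m.val : ℤ))) s.1 (x (src s)) (x (tgt s))) =
      (∑ y ∈ cube (Fin 4 × Bool) N,
        FW (S.image (fun s => (src s, tgt s))) (cD e D) N W b ν y) / (N : ℝ) ^ 8 := by
  have hNp : 0 < N := Nat.pos_of_ne_zero (NeZero.ne N)
  have hDne : (D : ZMod N) ≠ 0 := by
    intro h
    rw [ZMod.natCast_eq_zero_iff] at h
    exact absurd (Nat.le_of_dvd hD h) (not_le.2 hDN)
  unfold av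
  have hcard : (Fintype.card (Fin 4 × Bool → ZMod N) : ℝ) = (N : ℝ) ^ 8 := by
    rw [Fintype.card_fun, ZMod.card]
    simp [Fintype.card_prod]
  rw [hcard]
  congr 1
  symm
  refine Finset.sum_bij
    (fun (y : Fin 4 × Bool → ℤ) _ => fun v => (D : ZMod N) * ((y v : ℤ) : ZMod N)) ?_ ?_ ?_ ?_
  · intro y _
    exact mem_univ _
  · intro y hy y' hy' h
    funext v
    have h1 := congrFun h v
    have h2 := mul_left_cancel₀ hDne h1
    unfold cube at hy hy'
    rw [Fintype.mem_piFinset] at hy hy'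
    have h3 := mem_Ico.1 (hy v)
    have h4 := mem_Ico.1 (hy' v)
    rw [ZMod.intCast_eq_intCast_iff] at h2
    have h5 : y v % (N : ℤ) = y' v % (N : ℤ) := h2
    rwa [Int.emod_eq_of_lt h3.1 h3.2, Int.emod_eq_of_lt h4.1 h4.2] at h5
  · intro x _
    refine ⟨fun v => ((((D : ZMod N)⁻¹ * x v).val : ℕ) : ℤ), ?_, ?_⟩
    · unfold cube
      rw [Fintype.mem_piFinset]
      intro v
      rw [mem_Ico]
      refine ⟨by positivity, ?_⟩
      exact_mod_cast ZMod.val_lt _
    · funext v
      simp only [Int.cast_natCast, ZMod.natCast_zmod_val]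
      rw [mul_inv_cancel_left₀ hDne]
  · intro y _
    unfold FW
    rw [prod_image (fun s _ t _ h => re_inj h)]
    refine prod_congr rfl fun s hs => ?_
    unfold cay
    congr 2
    have hc := re_cD_mul he hD hde (hS hs)
    have hd : ((e s.1.2 - e s.1.1 : ℤ) : ZMod N) ≠ 0 := by
      intro h0
      apply hDne
      have h1 : ((D : ℤ) : ZMod N) = ((cD e D (src s, tgt s) : ℤ) : ZMod N) *
          ((e s.1.2 - e s.1.1 : ℤ) : ZMod N) := by
        rw [← hc]; push_cast; ring
      rw [h0, mul_zero] at h1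
      exact_mod_cast h1
    have key : ((D : ZMod N) * ((y (tgt s) : ℤ) : ZMod N) -
        (D : ZMod N) * ((y (src s) : ℤ) : ZMod N)) * dv N e s.1 =
        (((cD e D (src s, tgt s) : ℤ) * (y (tgt s) - y (src s)) : ℤ) : ZMod N) := by
      unfold dv
      rw [← mul_sub]
      have h1 : (D : ZMod N) = ((cD e D (src s, tgt s) : ℤ) : ZMod N) *
          ((e s.1.2 - e s.1.1 : ℤ) : ZMod N) := by
        have := congrArg (fun t : ℤ => (t : ZMod N)) hc
        simp only [Int.cast_mul] at this
        rw [this]; simp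
      rw [h1, mul_assoc, mul_assoc, mul_comm ((e s.1.2 - e s.1.1 : ℤ) : ZMod N), mul_assoc,
        mul_comm (((e s.1.2 - e s.1.1 : ℤ) : ZMod N)⁻¹), mul_inv_cancel₀ hd, mul_one]
      push_cast
      ring
    rw [key, ZMod.val_intCast]

open Pool.Agent.Work.MP_70e905_nt.PK in
/-- the conditions on the graph -/
theorem img_ok (e : Fin 4 → ℤ) (he : StrictMono e) (D : ℕ) (hD : 0 < D)
    (hde : ∀ i j, i < j → (e j - e i) ∣ (D : ℤ)) (w W : ℕ) (hDw : D ≤ w)
    (hW : ∀ p : ℕ, p.Prime → p ∣ W → p ≤ w) (S : Finset DE) (hS : S ⊆ PD) :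
    Ok (S.image (fun s => (src s, tgt s))) (fun u => (W : ℤ) * cD e D u) w ∧
      #(S.image (fun s => (src s, tgt s))) ≤ 24 ∧
      ∀ u ∈ S.image (fun s => (src s, tgt s)), 1 ≤ cD e D u ∧ cD e D u ≤ D := by
  have hcd : ∀ s ∈ S, 1 ≤ cD e D (src s, tgt s) ∧ cD e D (src s, tgt s) ≤ D := by
    intro s hs
    have hc := re_cD_mul he hD hde (hS hs)
    have hlt : s.1.1 < s.1.2 := by
      have := hS hs
      unfold PD at this
      exact (mem_filter.1 this).2
    have hpos : 0 < e s.1.2 - e s.1.1 := sub_pos.2 (he hlt)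
    have hD' : (0 : ℤ) < D := by exact_mod_cast hD
    constructor
    · by_contra h
      have h0 : cD e D (src s, tgt s) = 0 := by omega
      rw [h0] at hc
      simp at hc
      omega
    · have h1 : (cD e D (src s, tgt s) : ℤ) ≤ D := by nlinarith
      exact_mod_cast h1
  refine ⟨⟨?_, ?_, ?_⟩, ?_, ?_⟩
  · intro u hu
    obtain ⟨s, hs, rfl⟩ := mem_image.1 hu
    have hlt : s.1.1 < s.1.2 := by
      have := hS hs
      unfold PD at this
      exact (mem_filter.1 this).2
    intro h
    have := congrArg Prod.fst h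
    simp only [src, tgt] at this
    exact absurd this hlt.ne
  · intro u hu f hf huf
    obtain ⟨s, hs, rfl⟩ := mem_image.1 hu
    obtain ⟨t, ht, rfl⟩ := mem_image.1 hf
    have hlts : s.1.1 < s.1.2 := by
      have := hS hs
      unfold PD at this
      exact (mem_filter.1 this).2
    have hltt : t.1.1 < t.1.2 := by
      have := hS ht
      unfold PD at this
      exact (mem_filter.1 this).2
    by_contra hcon
    push Not at hcon
    have h1 := hcon (src t) (Or.inl rfl)
    have h2 := hcon (tgt t) (Or.inr rfl)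
    simp only at h1 h2
    apply huf
    by_cases ha : src t = src s
    · by_cases hb : tgt t = tgt s
      · simp only [ha, hb]
      · by_cases hb' : tgt t = src s
        · exfalso
          have h3 : src t = tgt t := ha.trans hb'.symm
          have := congrArg Prod.fst h3
          simp only [src, tgt] at this
          exact absurd this hltt.ne
        · exact absurd (h2 hb') hb
    · have ha' := h1 ha
      exfalso
      have e1 : t.1.1 = s.1.2 := by
        have := congrArg Prod.fst ha'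
        simpa [src, tgt] using this
      by_cases hb : tgt t = src s
      · have e2 : t.1.2 = s.1.1 := by
          have := congrArg Prod.fst hb
          simpa [src, tgt] using this
        rw [e1, e2] at hltt
        exact absurd (hltt.trans hlts) (lt_irrefl _)
      · have hb' := h2 hb
        have h3 : src t = tgt t := ha'.trans hb'.symm
        have := congrArg Prod.fst h3
        simp only [src, tgt] at this
        exact absurd this hltt.ne
  · intro u hu p hp hwp hdvd
    obtain ⟨s, hs, rfl⟩ := mem_image.1 hu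
    rcases (Nat.prime_iff_prime_int.1 hp).dvd_or_dvd hdvd with h | h
    · have h' : p ∣ W := by exact_mod_cast h
      exact absurd (hW p hp h') (not_le.2 hwp)
    · have h' : p ∣ cD e D (src s, tgt s) := by exact_mod_cast h
      have h1 := Nat.le_of_dvd (by have := (hcd s hs).1; omega) h'
      have h2 := (hcd s hs).2
      omega
  · refine card_image_le.trans ((card_le_card hS).trans ?_)
    decide
  · intro u hu
    obtain ⟨s, hs, rfl⟩ := mem_image.1 hu
    exact hcd s hs

end PoolPK
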